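import Mathlib

/-!
# Three-heap Blocking Nim, one forbidden amount in each of the three heaps (Q2)

The `𝒫`-positions are exactly the triples `(x, y, z)` with
`⌊x/2⌋ ⊕ ⌊y/2⌋ ⊕ ⌊z/2⌋ = 0`; the block forbidding to remove one counter from any heap always wins.
-/

set_option autoImplicit false

namespace Pool.Agent.Results.MP_7e332b_co.AllHeapsBlocked

/-- `Opt a b c p q`: from the heaps `p` one may move to `q` by removing a positive number of
counters from one heap, when the amounts `a`, `b`, `c` are forbidden in the first, second and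
third heap, respectively. -/
def Opt (a b c : ℕ) (p q : ℕ × ℕ × ℕ) : Prop :=
  (∃ t, 0 < t ∧ t ≤ p.1 ∧ t ≠ a ∧ q = (p.1 - t, p.2.1, p.2.2)) ∨
  (∃ t, 0 < t ∧ t ≤ p.2.1 ∧ t ≠ b ∧ q = (p.1, p.2.1 - t, p.2.2)) ∨
  (∃ t, 0 < t ∧ t ≤ p.2.2 ∧ t ≠ c ∧ q = (p.1, p.2.1, p.2.2 - t))

mutual
/-- The player about to announce a block has a winning strategy: there are positive numbers
`a, b, c` such that after every move which is not blocked by them, the player then to move (who
is the one who blocked) wins. In particular he wins if no legal move is left. -/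
inductive BlockerWins : ℕ × ℕ × ℕ → Prop
  | intro (p : ℕ × ℕ × ℕ) (a b c : ℕ) (ha : 0 < a) (hb : 0 < b) (hc : 0 < c)
      (h : ∀ q, Opt a b c p q → MoverWins q) : BlockerWins p
/-- The player about to move (after the block has been announced) has a winning strategy `s`: for
every block `a, b, c` the move to `s a b c` is legal, and at that position the player about to
announce a block (who is the one who moved) wins. -/
inductive MoverWins : ℕ × ℕ × ℕ → Prop
  | intro (p : ℕ × ℕ × ℕ) (s : ℕ → ℕ → ℕ → ℕ × ℕ × ℕ)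
      (hs : ∀ a b c, 0 < a → 0 < b → 0 < c → Opt a b c p (s a b c))
      (h : ∀ a b c, 0 < a → 0 < b → 0 < c → BlockerWins (s a b c)) : MoverWins p
end

theorem Opt.lt {a b c : ℕ} {p q : ℕ × ℕ × ℕ} (h : Opt a b c p q) :
    q.1 + q.2.1 + q.2.2 < p.1 + p.2.1 + p.2.2 := by
  rcases h with ⟨t, h1, h2, _, rfl⟩ | ⟨t, h1, h2, _, rfl⟩ | ⟨t, h1, h2, _, rfl⟩ <;>
    simp only <;> omega

theorem excl : ∀ (n : ℕ) (p : ℕ × ℕ × ℕ), p.1 + p.2.1 + p.2.2 ≤ n →
    ¬ (BlockerWins p ∧ MoverWins p) := by
  intro n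
  induction n with
  | zero =>
      rintro p hp ⟨h1, h2⟩
      cases h2 with
      | intro _ s hs _ =>
          have := (hs 1 1 1 one_pos one_pos one_pos).lt
          omega
  | succ n ih =>
      rintro p hp ⟨h1, h2⟩
      cases h1 with
      | intro _ a b c ha hb hc h =>
          cases h2 with
          | intro _ s hs h' =>
              have h3 := hs a b c ha hb hc
              exact ih (s a b c) (by have := h3.lt; omega) ⟨h' a b c ha hb hc, h _ h3⟩

/-- the Nim-sum of the halves -/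
def S (p : ℕ × ℕ × ℕ) : ℕ := (p.1 / 2) ^^^ (p.2.1 / 2) ^^^ (p.2.2 / 2)

theorem xor_ne {a b : ℕ} (h : a ≠ b) (c : ℕ) : a ^^^ c ≠ b ^^^ c := by
  intro hc
  exact h (Nat.xor_left_injective hc)

/-- from `S p = 0`, no move other than removing one counter keeps `S = 0` -/
theorem keep {p q : ℕ × ℕ × ℕ} (h : Opt 1 1 1 p q) (h0 : S p = 0) : S q ≠ 0 := by
  obtain ⟨x, y, z⟩ := p
  unfold S at *
  simp only at h0
  rcases h with ⟨t, h1, h2, h3, rfl⟩ | ⟨t, h1, h2, h3, rfl⟩ | ⟨t, h1, h2, h3, rfl⟩ <;>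
    simp only at h1 h2 h3 ⊢ <;> intro h4 <;> rw [← h0] at h4
  · have h5 : (x - t) / 2 ≠ x / 2 := by omega
    rw [Nat.xor_assoc, Nat.xor_assoc] at h4
    exact xor_ne h5 _ h4
  · have h5 : (y - t) / 2 ≠ y / 2 := by omega
    rw [Nat.xor_comm (x / 2), Nat.xor_comm (x / 2), Nat.xor_assoc, Nat.xor_assoc] at h4
    exact xor_ne h5 _ h4
  · have h5 : (z - t) / 2 ≠ z / 2 := by omega
    rw [Nat.xor_comm _ ((z - t) / 2), Nat.xor_comm _ (z / 2)] at h4
    exact xor_ne h5 _ h4

/-- a target avoiding one forbidden amount -/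
theorem target {x v a : ℕ} (h : v < x / 2) : ∃ t, 0 < t ∧ t ≤ x ∧ t ≠ a ∧ (x - t) / 2 = v := by
  by_cases ha : x - 2 * v = a
  · exact ⟨x - 2 * v - 1, by omega, by omega, by omega, by omega⟩
  · exact ⟨x - 2 * v, by omega, by omega, ha, by omega⟩

/-- from `S p ≠ 0` every block can be answered by a move to `S = 0` -/
theorem reach {p : ℕ × ℕ × ℕ} (h0 : S p ≠ 0) (a b c : ℕ) : ∃ q, Opt a b c p q ∧ S q = 0 := by
  obtain ⟨x, y, z⟩ := p
  unfold S at h0
  simp only at h0
  rcases Nat.xor_trichotomy h0 with h | h | h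
  · obtain ⟨t, h1, h2, h3, h4⟩ := target (a := a) h
    refine ⟨(x - t, y, z), Or.inl ⟨t, h1, h2, h3, rfl⟩, ?_⟩
    unfold S
    simp only
    rw [h4, Nat.xor_assoc]
    exact Nat.xor_self _
  · obtain ⟨t, h1, h2, h3, h4⟩ := target (a := b) h
    refine ⟨(x, y - t, z), Or.inr (Or.inl ⟨t, h1, h2, h3, rfl⟩), ?_⟩
    unfold S
    simp only
    rw [h4, Nat.xor_comm (x / 2), Nat.xor_assoc, Nat.xor_comm (x / 2)]
    exact Nat.xor_self _
  · obtain ⟨t, h1, h2, h3, h4⟩ := target (a := c) h
    refine ⟨(x, y, z - t), Or.inr (Or.inr ⟨t, h1, h2, h3, rfl⟩), ?_⟩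
    unfold S
    simp only
    rw [h4]
    exact Nat.xor_self _

theorem main : ∀ (n : ℕ) (p : ℕ × ℕ × ℕ), p.1 + p.2.1 + p.2.2 ≤ n →
    (S p = 0 → BlockerWins p) ∧ (S p ≠ 0 → MoverWins p) := by
  intro n
  induction n with
  | zero =>
      intro p hp
      constructor
      · intro h0
        refine BlockerWins.intro p 1 1 1 one_pos one_pos one_pos ?_
        intro q hq
        have := hq.lt
        omega
      · intro h0
        obtain ⟨q, hq, _⟩ := reach h0 1 1 1
        have := hq.lt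
        omega
  | succ n ih =>
      intro p hp
      constructor
      · intro h0
        refine BlockerWins.intro p 1 1 1 one_pos one_pos one_pos ?_
        intro q hq
        exact (ih q (by have := hq.lt; omega)).2 (keep hq h0)
      · intro h0
        choose s hs1 hs2 using reach h0
        refine MoverWins.intro p s (fun a b c _ _ _ => hs1 a b c) ?_
        intro a b c _ _ _
        exact (ih _ (by have := (hs1 a b c).lt; omega)).1 (hs2 a b c)

/-- **Three-heap Blocking Nim with one forbidden amount in each heap.**  The `𝒫`-positions are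
exactly the triples `(x, y, z)` with `⌊x/2⌋ ⊕ ⌊y/2⌋ ⊕ ⌊z/2⌋ = 0`, all other positions are
`𝒩`-positions (and no position is both). -/
theorem result (x y z : ℕ) :
    (BlockerWins (x, y, z) ↔ (x / 2) ^^^ (y / 2) ^^^ (z / 2) = 0) ∧
    (MoverWins (x, y, z) ↔ (x / 2) ^^^ (y / 2) ^^^ (z / 2) ≠ 0) := by
  have h := main (x + y + z) (x, y, z) le_rfl
  have he := excl (x + y + z) (x, y, z) le_rfl
  change (BlockerWins (x, y, z) ↔ S (x, y, z) = 0) ∧ (MoverWins (x, y, z) ↔ S (x, y, z) ≠ 0)
  constructor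
  · constructor
    · intro hb
      by_contra h0
      exact he ⟨hb, h.2 h0⟩
    · exact h.1
  · constructor
    · intro hm h0
      exact he ⟨h.1 h0, hm⟩
    · exact h.2

end Pool.Agent.Results.MP_7e332b_co.AllHeapsBlocked
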